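import Pool.Agent.H68.LCS.Targets

/-!
# MP_5607ba_lc, row DMR: compact sets in an open set, modulo the kernel
-/

set_option autoImplicit false

open Set Filter Topology
open scoped Pointwise

namespace Pool.Agent.H11.LCS

open Pool.Agent.H93.CP Pool.Agent.H7.LP Pool.Agent.H7.LQ Pool.Agent.H68.LCS

open Classical in
/-- the compact sets -/
noncomputable def EE {Γ F : Type} [Group Γ] [TopologicalSpace Γ] [MulAction Γ F]
    (D : LCd Γ F) (U : Set Γ) (h : ℕ → Γ) (m : ℕ) : Set Γ :=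
  if ∀ c ∈ D.N m.unpair.2, ∃ u ∈ U, ∀ y : F, (h m.unpair.1 * c) • y = u • y then
    (fun c => h m.unpair.1 * c) '' D.N m.unpair.2 else ∅

theorem pf_DMR : T_DMR := by
  intro Γ F _ _ _ _ _ D U hU
  have hne : Nonempty Γ := ⟨1⟩
  obtain ⟨h, hh⟩ := TopologicalSpace.exists_dense_seq Γ
  refine ⟨EE D U h, ?_, ?_, ?_⟩
  · intro m
    unfold EE
    split_ifs
    · exact (D.cpt _).image (continuous_const.mul continuous_id)
    · exact isCompact_empty
  · intro m γ hγ
    unfold EE at hγ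
    split_ifs at hγ with h1
    · obtain ⟨c, hc, rfl⟩ := hγ
      exact h1 c hc
    · exact absurd hγ (Set.notMem_empty γ)
  · intro u hu
    -- the neighbourhood `O`
    have hc : Continuous fun p : Γ × Γ => u * p.1⁻¹ * p.2 := by fun_prop
    have h1 : {p : Γ × Γ | u * p.1⁻¹ * p.2 ∈ U} ∈ 𝓝 ((1 : Γ), (1 : Γ)) := by
      refine hc.continuousAt (x := ((1 : Γ), (1 : Γ))) ?_
      show U ∈ 𝓝 (u * (1 : Γ)⁻¹ * 1)
      rw [inv_one, mul_one, mul_one]
      exact hU.mem_nhds hu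
    rw [nhds_prod_eq, mem_prod_iff] at h1
    obtain ⟨A, hA, B, hB, hAB⟩ := h1
    obtain ⟨p, hp⟩ := D.sml B hB
    -- the point of the dense sequence
    have h2 : {x : Γ | x⁻¹ * u ∈ A ∩ D.W p} ∈ 𝓝 u := by
      have hc2 : Continuous fun x : Γ => x⁻¹ * u := by fun_prop
      refine hc2.continuousAt (x := u) ?_
      show A ∩ D.W p ∈ 𝓝 (u⁻¹ * u)
      rw [inv_mul_cancel]
      exact inter_mem hA ((D.opn p).mem_nhds (D.one p))
    obtain ⟨i, hx⟩ := hh.exists_mem_open isOpen_interior ⟨u, mem_interior_iff_mem_nhds.2 h2⟩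
    have hx2 : h i ∈ {x : Γ | x⁻¹ * u ∈ A ∩ D.W p} := interior_subset hx
    have hx' : (h i)⁻¹ * u ∈ A ∩ D.W p := hx2
    have hcond : ∀ c ∈ D.N p, ∃ u ∈ U, ∀ y : F, (h i * c) • y = u • y := by
      intro c hc
      obtain ⟨o, ho, hco⟩ := hp c hc
      refine ⟨h i * o, ?_, fun y => ?_⟩
      · have h4 := hAB (Set.mk_mem_prod hx'.1 ho)
        have h5 : u * ((h i)⁻¹ * u)⁻¹ * o ∈ U := h4
        have e : u * ((h i)⁻¹ * u)⁻¹ * o = h i * o := by group
        rwa [e] at h5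
      · rw [mul_smul, mul_smul, hco]
    obtain ⟨c, hc, hca⟩ := D.cov p _ hx'.2
    refine ⟨Nat.pair i p, h i * c, ?_, fun y => ?_⟩
    · unfold EE
      rw [Nat.unpair_pair, if_pos hcond]
      exact ⟨c, hc, rfl⟩
    · have e : u = h i * ((h i)⁻¹ * u) := by group
      rw [mul_smul, ← hca, ← mul_smul, ← e]

end Pool.Agent.H11.LCS
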